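import Pool.Agent.Helper16.GradeFinal

set_option autoImplicit false
set_option linter.unusedSectionVars false

/-! Exact values of the invariants of helper16's example for the grade conjecture. -/

noncomputable section

namespace Pool.Agent.Helper2.BK

open PowerSeries Matrix CategoryTheory Pool.Agent.Helper16

section gen

variable {A : Type} [CommRing A]

theorem pd_shift {P N K : Type} [AddCommGroup P] [Module A P] [AddCommGroup N] [Module A N]
    [AddCommGroup K] [Module A K] [Module.Projective A P] (i : K →ₗ[A] P) (p : P →ₗ[A] N)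
    (hi : Function.Injective i) (hp : Function.Surjective p) (hex : Function.Exact i p) (n : ℕ) :
    HasProjectiveDimensionLT (ModuleCat.of A N) (n + 2) ↔
      HasProjectiveDimensionLT (ModuleCat.of A K) (n + 1) := by
  let S : ShortComplex (ModuleCat.{0} A) :=
    ModuleCat.shortComplexOfCompEqZero i p hex.linearMap_comp_eq_zero
  have hS : S.ShortExact := ModuleCat.shortComplex_shortExact S hex hi hp
  have hP : Projective S.X₂ := by
    show Projective (ModuleCat.of A P)
    exact (IsProjective.iff_projective P).1 inferInstance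
  exact hS.hasProjectiveDimensionLT_X₃_iff n hP

variable {x y u v t : A} (h1 : x * u = y * v) (h2 : x * t = 0)
  (h3 : y * t = 0) (reg : Reg3 A (u ^ 2) ((y + v) ^ 3) ((x + t) ^ 2))

include h1 h2 h3 reg

theorem exT : Function.Exact (Tm x y u v t).vecMulLinear
    (Sm x y u v t).vecMulLinear.rangeRestrict := by
  intro w
  constructor
  · intro h
    have h' : w ᵥ* Sm x y u v t = 0 := congrArg Subtype.val h
    obtain ⟨q, hq⟩ := S_exact h1 h2 h3 reg w h'
    exact ⟨q, hq⟩
  · rintro ⟨q, rfl⟩
    apply Subtype.ext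
    exact TS_zero h1 h2 h3 q

theorem exS : Function.Exact (LinearMap.range (Sm x y u v t).vecMulLinear).subtype
    (Rm x y u v t).vecMulLinear.rangeRestrict := by
  intro w
  constructor
  · intro h
    have h' : w ᵥ* Rm x y u v t = 0 := congrArg Subtype.val h
    obtain ⟨q, hq⟩ := R_exact h1 h2 h3 reg w h'
    exact ⟨⟨w, ⟨q, hq⟩⟩, rfl⟩
  · rintro ⟨⟨_, ⟨q, rfl⟩⟩, rfl⟩
    apply Subtype.ext
    exact SR_zero h1 h2 h3 q

theorem Tinj : Function.Injective (Tm x y u v t).vecMulLinear := by
  rw [injective_iff_map_eq_zero]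
  intro w hw
  exact T_inj h1 h2 h3 reg w hw

theorem pd_iff (n : ℕ) : HasProjectiveDimensionLT (ModuleCat.of A (MM x y u v t)) (n + 3) ↔
    HasProjectiveDimensionLT
      (ModuleCat.of A (LinearMap.range (Sm x y u v t).vecMulLinear)) (n + 1) := by
  have e1 := pd_shift (LinearMap.range (Rm x y u v t).vecMulLinear).subtype
    (Submodule.mkQ (LinearMap.range (Rm x y u v t).vecMulLinear))
    (Submodule.injective_subtype _) (Submodule.mkQ_surjective _)
    (LinearMap.exact_subtype_mkQ _) (n + 1)
  have e2 := pd_shift (LinearMap.range (Sm x y u v t).vecMulLinear).subtype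
    (Rm x y u v t).vecMulLinear.rangeRestrict
    (Submodule.injective_subtype _) (LinearMap.surjective_rangeRestrict _)
    (exS h1 h2 h3 reg) n
  exact e1.trans e2

theorem pd_le : HasProjectiveDimensionLT (ModuleCat.of A (MM x y u v t)) 4 := by
  rw [pd_iff h1 h2 h3 reg 1]
  rw [pd_shift (Tm x y u v t).vecMulLinear (Sm x y u v t).vecMulLinear.rangeRestrict
    (Tinj h1 h2 h3 reg) (LinearMap.surjective_rangeRestrict _) (exT h1 h2 h3 reg) 0]
  rw [zero_add, ← projective_iff_hasProjectiveDimensionLT_one]
  exact (IsProjective.iff_projective (Fin 2 → A)).1 inferInstance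

theorem not_pd {k : Type} [Field k] (e : A →+* k) (ex : e x = 0) (ey : e y = 0) (eu : e u = 0)
    (ev : e v = 0) (et : e t = 0) :
    ¬ HasProjectiveDimensionLT (ModuleCat.of A (MM x y u v t)) 3 := by
  rw [pd_iff h1 h2 h3 reg 0, zero_add, ← projective_iff_hasProjectiveDimensionLT_one]
  intro hproj
  have hp : Module.Projective A (LinearMap.range (Sm x y u v t).vecMulLinear) :=
    (IsProjective.iff_projective _).2 hproj
  obtain ⟨l, hl⟩ := Module.projective_lifting_property
    (Sm x y u v t).vecMulLinear.rangeRestrict LinearMap.id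
    (LinearMap.surjective_rangeRestrict _)
  obtain ⟨r, hr⟩ : ∃ r : (Fin 6 → A) →ₗ[A] (Fin 2 → A),
      r ∘ₗ (Tm x y u v t).vecMulLinear = LinearMap.id := by
    have h := ((exT h1 h2 h3 reg).split_tfae (Tinj h1 h2 h3 reg)
      (LinearMap.surjective_rangeRestrict _)).out 0 1
    exact h.1 ⟨l, hl⟩
  have hr0 := congrFun (LinearMap.congr_fun hr ![1, 0]) 0
  simp only [LinearMap.comp_apply, LinearMap.id_apply] at hr0
  have hT : (Tm x y u v t).vecMulLinear ![1, 0] = ![-x + t, -y - v, u, x, 0, y - y^2] := by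
    show ![1, 0] ᵥ* Tm x y u v t = _
    rw [vecMul_T]
    ext j
    fin_cases j <;> simp
  rw [hT] at hr0
  set c : Fin 6 → A := ![-x + t, -y - v, u, x, 0, y - y^2] with hc
  have hsum : r c = ∑ j, c j • r (Pi.single j 1) := by
    conv_lhs => rw [pi_eq_sum_univ' c]
    rw [map_sum]
    refine Finset.sum_congr rfl fun j _ => ?_
    rw [map_smul]
  rw [hsum] at hr0
  have hz : ∀ j, e (c j) = 0 := by
    intro j
    fin_cases j <;> simp [hc, ex, ey, eu, ev, et]
  have h5 := congrArg e hr0
  simp [Finset.sum_apply, hz] at h5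

end gen

/-- evaluation at the closed point -/
def ep : AA →+* ℚ := (constantCoeff (R := ℚ)).comp chi

theorem pd_MA_le : HasProjectiveDimensionLT (ModuleCat.of AA MA) 4 :=
  pd_le GA.x_mul_u GA.x_mul_t GA.y_mul_t regAA

theorem not_pd_MA : ¬ HasProjectiveDimensionLT (ModuleCat.of AA MA) 3 :=
  not_pd GA.x_mul_u GA.x_mul_t GA.y_mul_t regAA ep (by simp [ep]) (by simp [ep]) (by simp [ep])
    (by simp [ep]) (by simp [ep])

theorem pd_MA : projectiveDimension (ModuleCat.of AA MA) = 3 := by
  apply le_antisymm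
  · exact_mod_cast (projectiveDimension_le_iff _ 3).2 pd_MA_le
  · exact_mod_cast (projectiveDimension_ge_iff _ 3).2 not_pd_MA

theorem ann_le_max : Module.annihilator AA MA ≤ IsLocalRing.maximalIdeal AA := by
  refine ann_le_PP.trans (IsLocalRing.le_maximalIdeal ?_)
  exact Ideal.IsPrime.ne_top'

theorem reg_two : RingTheory.Sequence.IsRegular AA
    [(GA.uu : AA) ^ 2, (GA.y + GA.vv : AA) ^ 3] := by
  rw [IsLocalRing.isRegular_iff_isWeaklyRegular_of_subset_maximalIdeal]
  · rw [RingTheory.Sequence.isWeaklyRegular_cons_iff,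
      RingTheory.Sequence.isWeaklyRegular_singleton_iff]
    constructor
    · rw [isSMulRegular_iff_right_eq_zero_of_smul]
      intro a ha
      exact regAA.f1 a ha
    · rw [isSMulRegular_quotient_iff_mem_of_smul_mem]
      intro a ha
      obtain ⟨b, -, hb⟩ := Submodule.mem_smul_pointwise_iff_exists _ _ _ |>.1 ha
      obtain ⟨a', ha'⟩ := regAA.f2 a b hb.symm
      rw [ha']
      exact Submodule.smul_mem_pointwise_smul _ _ _ trivial
  · intro r hr
    simp only [List.mem_cons, List.not_mem_nil, or_false] at hr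
    rcases hr with rfl | rfl
    · exact ann_le_max u2_mem
    · exact ann_le_max c3_mem

theorem chi_jj (f : E) : chi (jj f) = f := by
  simp [chi_apply, jj, kap]

theorem dim_quot : ringKrullDim (AA ⧸ Module.annihilator AA MA) = 1 := by
  apply le_antisymm dim_quot_le
  have h0 : ringKrullDim ℚ = 0 := ringKrullDim_eq_zero_of_field ℚ
  have h1 : ringKrullDim ℚ + 1 ≤ ringKrullDim E := ringKrullDim_succ_le_ringKrullDim_powerseries
  rw [h0, zero_add] at h1
  refine h1.trans ?_
  have hs : Function.Surjective (Ideal.Quotient.lift (Module.annihilator AA MA) chi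
      (fun a ha => RingHom.mem_ker.1 (ann_le_PP ha))) := by
    intro f
    exact ⟨Ideal.Quotient.mk _ (jj f), by rw [Ideal.Quotient.lift_mk, chi_jj]⟩
  exact ringKrullDim_le_of_surjective _ hs

theorem not_isUnit_of (z : AA) (hz : constantCoeff (chi z) = 0) :
    z ∈ IsLocalRing.maximalIdeal AA := by
  rw [IsLocalRing.mem_maximalIdeal, mem_nonunits_iff]
  intro h
  have h2 := (h.map chi).map (constantCoeff (R := ℚ))
  rw [hz] at h2
  exact not_isUnit_zero h2

theorem dim_AA : ringKrullDim AA = 4 := by
  classical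
  refine le_antisymm ?_ four_le_dim
  rw [← IsLocalRing.maximalIdeal_height_eq_ringKrullDim]
  have hmin : IsLocalRing.maximalIdeal AA ∈ (Ideal.span
      ({(GA.uu : AA), GA.sc pu pc pd pc, GA.sc pu pc pd pd, GA.s} : Set AA)).minimalPrimes := by
    refine ⟨⟨inferInstance, ?_⟩, ?_⟩
    · rw [Ideal.span_le]
      rintro z (rfl | rfl | rfl | rfl)
      · exact not_isUnit_of _ (by simp)
      · exact not_isUnit_of _ (by simp [chi_apply])
      · exact not_isUnit_of _ (by simp [chi_apply])
      · exact not_isUnit_of _ (by simp [chi_apply])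
    · rintro q ⟨hq, hle⟩ - z hz
      have hu : (GA.uu : AA) ∈ q := hle (Ideal.subset_span (by simp))
      have hc : GA.sc pu pc pd pc ∈ q := hle (Ideal.subset_span (by simp))
      have hd : GA.sc pu pc pd pd ∈ q := hle (Ideal.subset_span (by simp))
      have hs : (GA.s : AA) ∈ q := hle (Ideal.subset_span (by simp))
      have hy := y_mem_of q hu hc
      have hx : (GA.x : AA) ∈ q := by
        have h0 : (GA.x : AA) * (GA.sc pu pc pd pd - GA.x) = 0 := GA.x_mul_t
        have h1 : (GA.x : AA) * GA.x ∈ q := by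
          have : (GA.x : AA) * GA.x = GA.x * GA.sc pu pc pd pd := by
            linear_combination -h0
          rw [this]
          exact Ideal.mul_mem_left _ _ hd
        exact (hq.mem_or_mem h1).elim id id
      have ht : (GA.tt : AA) ∈ q := Ideal.sub_mem _ hd hx
      have hz1 := sub_mem q hu hc hs ht hy z
      have hz2 : constantCoeff (chi z) = 0 := by
        by_contra hne
        exact (IsLocalRing.mem_maximalIdeal z).1 hz (isUnit_of_constantCoeff z hne)
      obtain ⟨f, hf⟩ : (X : E) ∣ chi z := by rwa [X_dvd_iff]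
      have hjX : jj X ∈ q := hd
      have h3 : jj (chi z) ∈ q := by
        rw [hf, map_mul]
        exact Ideal.mul_mem_right _ _ hjX
      have := Ideal.add_mem _ hz1 h3
      rwa [sub_add_cancel] at this
  have h2 := Ideal.height_le_card_of_mem_minimalPrimes_span (Set.toFinite _) hmin
  have h3 : (({(GA.uu : AA), GA.sc pu pc pd pc, GA.sc pu pc pd pd, GA.s} : Set AA).ncard : ℕ∞)
      ≤ 4 := by
    have e1 := Set.ncard_insert_le (GA.uu : AA) {GA.sc pu pc pd pc, GA.sc pu pc pd pd, GA.s}
    have e2 := Set.ncard_insert_le (GA.sc pu pc pd pc : AA) {GA.sc pu pc pd pd, GA.s}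
    have e3 := Set.ncard_insert_le (GA.sc pu pc pd pd : AA) {GA.s}
    rw [Set.ncard_singleton] at e3
    exact_mod_cast (by omega :
      ({(GA.uu : AA), GA.sc pu pc pd pc, GA.sc pu pc pd pd, GA.s} : Set AA).ncard ≤ 4)
  have h4 : (4 : WithBot ℕ∞) = ((4 : ℕ∞) : WithBot ℕ∞) := rfl
  rw [h4]
  exact WithBot.coe_le_coe.2 (h2.trans h3)

theorem no_three (rs : List AA) (hreg : RingTheory.Sequence.IsWeaklyRegular AA rs)
    (hmem : ∀ r ∈ rs, r ∈ Module.annihilator AA MA) : rs.length ≤ 2 := by
  by_contra hcon
  push Not at hcon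
  have hsplit : rs = rs.take 3 ++ rs.drop 3 := (List.take_append_drop 3 rs).symm
  have h1 : RingTheory.Sequence.IsWeaklyRegular AA (rs.take 3) := by
    rw [hsplit, RingTheory.Sequence.isWeaklyRegular_append_iff] at hreg
    exact hreg.1
  exact no_regular_three (rs.take 3) (by rw [List.length_take]; omega)
    (fun r hr => hmem r (List.mem_of_mem_take hr)) h1

end Pool.Agent.Helper2.BK
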